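import Mathlib
import Pool.Agent.Helper20.QP.St1

/-!
Project QD, PART P, module PKG.
-/

set_option autoImplicit false

open Filter Topology Matrix Set Metric MeasureTheory
open scoped ComplexConjugate ENNReal

namespace Pool.Agent.Helper95.QP

open Pool.Agent.Helper35.PM (hs Mat SL IsDiscrete)
open Pool.Agent.Helper20.QD
open Pool.Agent.Helper20.QP

/-- The density of the hyperbolic area. -/
noncomputable def dn (z : ℂ) : ℝ≥0∞ := ENNReal.ofReal (4 / (1 - ‖z‖ ^ 2) ^ 2)

theorem measurable_dn : Measurable dn := by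
  unfold dn
  fun_prop

/-- The hyperbolic area as a measure. -/
noncomputable def mu : Measure ℂ := volume.withDensity dn

theorem ar_eq {S : Set ℂ} (hS : MeasurableSet S) : ar S = mu S := by
  unfold ar mu
  rw [withDensity_apply _ hS]
  rfl

theorem measurable_mob (A : SL) : Measurable (mob A) := by
  unfold mob
  fun_prop

section

variable {Γ : Type} [Group Γ]

theorem countable_of_discrete (σ : Γ →* SL) (h : IsDiscrete σ) : Countable Γ := by
  rw [← Set.countable_univ_iff]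
  have h1 : (Set.univ : Set Γ) = ⋃ n : ℕ, {γ : Γ | hs (σ γ) ≤ (n : ℝ)} := by
    ext γ
    simp only [mem_univ, mem_iUnion, mem_setOf_eq, true_iff]
    exact exists_nat_ge _
  rw [h1]
  exact Set.countable_iUnion fun n => (h n).countable

theorem D_sub_DD {z : ℂ} (hz : z ∈ D) : z ∈ DD := ball_subset_closedBall hz

/-- Facts about the action. -/
theorem act_facts (hSUB : StSUB) (σ : Γ →* SL) (hσ : Fuch σ) :
    (∀ (γ : Γ) (z : ℂ), z ∈ D → mob (σ γ) z ∈ D) ∧
    (∀ (γ δ : Γ) (z : ℂ), z ∈ D → mob (σ (γ * δ)) z = mob (σ γ) (mob (σ δ) z)) ∧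
    (∀ (z : ℂ), mob (σ (1 : Γ)) z = z) ∧
    (∀ (γ : Γ), InjOn (mob (σ γ)) D) := by
  obtain ⟨s1, s2, s3, s4, s5, s6⟩ := hSUB
  refine ⟨?_, ?_, ?_, ?_⟩
  · intro γ z hz
    exact (s1 (σ γ) (hσ.su γ)).2.2.1.mapsTo hz
  · intro γ δ z hz
    rw [map_mul]
    exact (s4 (σ γ) (σ δ) z ((s1 (σ δ) (hσ.su δ)).2.1 z (D_sub_DD hz))).1
  · intro z
    rw [map_one]
    unfold mob
    simp
  · intro γ
    exact (s1 (σ γ) (hσ.su γ)).2.2.1.injOn

/-- Images of measurable subsets of the disc are measurable. -/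
theorem meas_image (hSUB : StSUB) (σ : Γ →* SL) (hσ : Fuch σ) (γ : Γ) {S : Set ℂ}
    (hS : MeasurableSet S) (hSD : S ⊆ D) : MeasurableSet (mob (σ γ) '' S) := by
  obtain ⟨a1, a2, a3, a4⟩ := act_facts hSUB σ hσ
  have h1 : mob (σ γ) '' S = D ∩ (mob (σ γ⁻¹)) ⁻¹' S := by
    ext z
    constructor
    · rintro ⟨x, hx, rfl⟩
      refine ⟨a1 γ x (hSD hx), ?_⟩
      rw [mem_preimage, ← a2 γ⁻¹ γ x (hSD hx), inv_mul_cancel, a3]
      exact hx
    · rintro ⟨hz, hz2⟩
      refine ⟨mob (σ γ⁻¹) z, hz2, ?_⟩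
      rw [← a2 γ γ⁻¹ z hz, mul_inv_cancel, a3]
  rw [h1]
  exact isOpen_ball.measurableSet.inter (measurable_mob _ hS)

/-- The measure of the part of `P` that a group element carries to `Q`. -/
theorem mu_piece (hSUB : StSUB) (hBLL : StBLL) (σ : Γ →* SL) (hσ : Fuch σ) (γ : Γ) {P Q : Set ℂ}
    (hP : MeasurableSet P) (hPD : P ⊆ D) (hQ : MeasurableSet Q) :
    mu (P ∩ (mob (σ γ)) ⁻¹' Q) = mu (mob (σ γ) '' P ∩ Q) := by
  have hm : MeasurableSet (P ∩ (mob (σ γ)) ⁻¹' Q) := hP.inter (measurable_mob _ hQ)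
  have hsub : P ∩ (mob (σ γ)) ⁻¹' Q ⊆ D := fun z hz => hPD hz.1
  have h1 := hBLL.1 (σ γ) (P ∩ (mob (σ γ)) ⁻¹' Q) (hσ.su γ) hm hsub
  have h2 : mob (σ γ) '' (P ∩ (mob (σ γ)) ⁻¹' Q) = mob (σ γ) '' P ∩ Q :=
    Set.image_inter_preimage _ _ _
  rw [h2] at h1
  rw [← ar_eq hm, ← ar_eq ((meas_image hSUB σ hσ γ hP hPD).inter hQ), h1]

theorem mu_ball_lt_top (r : ℝ) (hr : r < 1) : mu (closedBall (0 : ℂ) r) < ∞ := by
  unfold mu
  rw [withDensity_apply _ isClosed_closedBall.measurableSet]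
  have h1 : ∫⁻ z in closedBall (0 : ℂ) r, dn z ≤
      ∫⁻ _ in closedBall (0 : ℂ) r, ENNReal.ofReal (4 / (1 - r ^ 2) ^ 2) := by
    refine setLIntegral_mono measurable_const fun z hz => ?_
    unfold dn
    refine ENNReal.ofReal_le_ofReal ?_
    have hz' : ‖z‖ ≤ r := by simpa using hz
    have h0 : 0 ≤ ‖z‖ := norm_nonneg z
    have h2 : ‖z‖ ^ 2 ≤ r ^ 2 := pow_le_pow_left₀ h0 hz' 2
    have h3 : r ^ 2 < 1 := by nlinarith
    have h4 : 0 < 1 - r ^ 2 := by linarith
    refine div_le_div_of_nonneg_left (by norm_num) (by positivity) ?_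
    exact pow_le_pow_left₀ h4.le (by linarith) 2
  refine lt_of_le_of_lt h1 ?_
  rw [setLIntegral_const]
  exact ENNReal.mul_lt_top ENNReal.ofReal_lt_top measure_closedBall_lt_top

/-- MODULE PKG. -/
theorem hPKG (hSUB : StSUB) (hBLL : StBLL) : StPKG := by
  intro Γ _ σ F0 hσ hF
  haveI : Countable Γ := countable_of_discrete σ hσ.discrete
  obtain ⟨a1, a2, a3, a4⟩ := act_facts hSUB σ hσ
  have hF0m : MeasurableSet F0 := hF.mD
  have hF0D : F0 ⊆ D := hF.sub
  refine ⟨?_, ?_⟩
  · intro ι _ P hP hdis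
    haveI : Countable ι := inferInstance
    have hPi : ∀ i, ar (P i) = ∑' γ : Γ, mu (mob (σ γ) '' P i ∩ F0) := by
      intro i
      have h1 : P i = ⋃ γ : Γ, P i ∩ (mob (σ γ)) ⁻¹' F0 := by
        ext z
        constructor
        · intro hz
          obtain ⟨γ, hγ, _⟩ := hF.ex z ((hP i).2 hz)
          exact mem_iUnion.2 ⟨γ, hz, hγ⟩
        · intro hz
          obtain ⟨γ, hγ⟩ := mem_iUnion.1 hz
          exact hγ.1
      have h2 : mu (⋃ γ : Γ, P i ∩ (mob (σ γ)) ⁻¹' F0) =
          ∑' γ : Γ, mu (P i ∩ (mob (σ γ)) ⁻¹' F0) := by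
        refine measure_iUnion ?_ ?_
        · intro γ δ hγδ
          rw [Function.onFun, Set.disjoint_left]
          intro z hz hz'
          exact hγδ ((hF.ex z ((hP i).2 hz.1)).unique hz.2 hz'.2)
        · intro γ
          exact (hP i).1.inter (measurable_mob _ hF0m)
      rw [ar_eq (hP i).1]
      conv_lhs => rw [h1]
      rw [h2]
      exact tsum_congr fun γ => mu_piece hSUB hBLL σ hσ γ (hP i).1 (hP i).2 hF0m
    calc ∑ i, ar (P i) = ∑' i, ∑' γ : Γ, mu (mob (σ γ) '' P i ∩ F0) := by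
          rw [tsum_fintype]
          exact Finset.sum_congr rfl fun i _ => hPi i
      _ = ∑' p : ι × Γ, mu (mob (σ p.2) '' P p.1 ∩ F0) :=
          (ENNReal.tsum_prod (f := fun i γ => mu (mob (σ γ) '' P i ∩ F0))).symm
      _ = mu (⋃ p : ι × Γ, mob (σ p.2) '' P p.1 ∩ F0) := by
          symm
          refine measure_iUnion ?_ ?_
          · rintro ⟨i, γ⟩ ⟨j, δ⟩ hne
            rw [Function.onFun, Set.disjoint_left]
            rintro z ⟨⟨x, hx, hxz⟩, _⟩ ⟨⟨y, hy, hyz⟩, _⟩
            have hxD := (hP i).2 hx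
            have hyD := (hP j).2 hy
            have h3 : mob (σ (δ⁻¹ * γ)) x = y := by
              rw [a2 δ⁻¹ γ x hxD, hxz, ← hyz, ← a2 δ⁻¹ δ y hyD, inv_mul_cancel, a3]
            have h4 : i ≠ j ∨ δ⁻¹ * γ ≠ 1 := by
              by_contra hcon
              push Not at hcon
              apply hne
              have h5 : γ = δ := by
                have := hcon.2
                rw [inv_mul_eq_one] at this
                exact this.symm
              rw [hcon.1, h5]
            exact Set.disjoint_left.1 (hdis i j (δ⁻¹ * γ) h4) ⟨x, hx, h3⟩ hy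
          · rintro ⟨i, γ⟩
            exact (meas_image hSUB σ hσ γ (hP i).1 (hP i).2).inter hF0m
      _ ≤ mu F0 := by
          refine measure_mono ?_
          intro z hz
          obtain ⟨p, hp⟩ := mem_iUnion.1 hz
          exact hp.2
      _ = ar F0 := (ar_eq hF0m).symm
  · have hfin : ar F0 ≠ ∞ := by
      obtain ⟨r, hr1, hr⟩ := hσ.cocompact
      have hKm : MeasurableSet (closedBall (0 : ℂ) r) := isClosed_closedBall.measurableSet
      have h1 : F0 ⊆ ⋃ γ : Γ, F0 ∩ (mob (σ γ)) ⁻¹' (closedBall (0 : ℂ) r) := by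
        intro z hz
        obtain ⟨γ, hγ⟩ := hr z (hF0D hz)
        exact mem_iUnion.2 ⟨γ, hz, by simpa using hγ⟩
      have h2 : mu F0 ≤ mu (closedBall (0 : ℂ) r) := by
        calc mu F0 ≤ mu (⋃ γ : Γ, F0 ∩ (mob (σ γ)) ⁻¹' (closedBall (0 : ℂ) r)) := measure_mono h1
          _ ≤ ∑' γ : Γ, mu (F0 ∩ (mob (σ γ)) ⁻¹' (closedBall (0 : ℂ) r)) := measure_iUnion_le _
          _ = ∑' γ : Γ, mu (mob (σ γ) '' F0 ∩ closedBall (0 : ℂ) r) :=
              tsum_congr fun γ => mu_piece hSUB hBLL σ hσ γ hF0m hF0D hKm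
          _ = mu (⋃ γ : Γ, mob (σ γ) '' F0 ∩ closedBall (0 : ℂ) r) := by
              symm
              refine measure_iUnion ?_ ?_
              · intro γ δ hne
                rw [Function.onFun, Set.disjoint_left]
                rintro z ⟨⟨x, hx, hxz⟩, _⟩ ⟨⟨y, hy, hyz⟩, _⟩
                have hxD := hF0D hx
                have hyD := hF0D hy
                have h3 : mob (σ (δ⁻¹ * γ)) x = y := by
                  rw [a2 δ⁻¹ γ x hxD, hxz, ← hyz, ← a2 δ⁻¹ δ y hyD, inv_mul_cancel, a3]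
                have h4 : δ⁻¹ * γ = 1 := by
                  refine (hF.ex x hxD).unique ?_ ?_
                  · show mob (σ (δ⁻¹ * γ)) x ∈ F0
                    rw [h3]; exact hy
                  · show mob (σ 1) x ∈ F0
                    rw [a3]; exact hx
                rw [inv_mul_eq_one] at h4
                exact hne h4.symm
              · intro γ
                exact (meas_image hSUB σ hσ γ hF0m hF0D).inter hKm
          _ ≤ mu (closedBall (0 : ℂ) r) := by
              refine measure_mono ?_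
              intro z hz
              obtain ⟨p, hp⟩ := mem_iUnion.1 hz
              exact hp.2
      rw [ar_eq hF0m]
      exact ne_top_of_le_ne_top (mu_ball_lt_top r hr1).ne h2
    refine ⟨hfin, ?_⟩
    unfold ar
    rw [integral_eq_lintegral_of_nonneg_ae]
    · exact Filter.Eventually.of_forall fun z => by positivity
    · have : Measurable fun z : ℂ => 4 / (1 - ‖z‖ ^ 2) ^ 2 := by fun_prop
      exact this.aestronglyMeasurable

end

end Pool.Agent.Helper95.QP
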